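import Pool.Agent.Z72.LD.Rand

/-!
# Asymptotics for the colourings of bounded Littlestone dimension
-/

set_option autoImplicit false

namespace Pool.Agent.Z72.LD

open Finset Real

theorem clique_le {n k : ℕ} {G : SimpleGraph (Fin n)} (h : G.CliqueFree k) (T : Finset (Fin n))
    (hT : G.IsClique (T : Set (Fin n))) : T.card ≤ k - 1 := by
  by_contra hc
  have hk : k ≤ T.card := by omega
  obtain ⟨T', hT', hc'⟩ := Finset.exists_subset_card_eq hk
  refine h T' ⟨hT.subset (by exact_mod_cast hT'), hc'⟩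

/-- the upper bound -/
theorem up_nat {n k : ℕ} {G : SimpleGraph (Fin n)} (h1 : G.CliqueFree k) (h2 : Gᶜ.CliqueFree k) {D : ℕ}
    (hD : ¬ RGe G D Set.univ) : n ≤ nodes (2 * (k - 1)) D := by
  classical
  have h := upper G (2 * (k - 1)) (k - 1) (k - 1) D Finset.univ (by ring) (fun T _ hT => clique_le h1 T hT)
    (fun T _ hT => clique_le h2 T hT) (by rwa [coe_univ])
  rwa [card_univ, Fintype.card_fin] at h

theorem nodes_le (s D : ℕ) (h1 : 1 ≤ D) (h2 : D ≤ s) : (nodes s D : ℝ) ≤ (exp 1 * s / D) ^ D := by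
  have hD : (0 : ℝ) < D := by exact_mod_cast h1
  have hs : (0 : ℝ) < s := by exact_mod_cast (h1.trans h2)
  have hDs : (D : ℝ) / s ≤ 1 := by rw [div_le_one hs]; exact_mod_cast h2
  have h3 : (nodes s D : ℝ) * ((D : ℝ) / s) ^ D ≤ exp D := by
    unfold nodes
    push_cast
    rw [Finset.sum_mul]
    calc ∑ i ∈ Icc 1 D, ((s.choose i : ℕ) : ℝ) * ((D : ℝ) / s) ^ D ≤ ∑ i ∈ Icc 1 D, ((s.choose i : ℕ) : ℝ) * ((D : ℝ) / s) ^ i := by
          refine sum_le_sum fun i hi => mul_le_mul_of_nonneg_left ?_ (by positivity)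
          rw [mem_Icc] at hi
          exact pow_le_pow_of_le_one (by positivity) hDs hi.2
      _ ≤ ∑ i ∈ range (s + 1), ((s.choose i : ℕ) : ℝ) * ((D : ℝ) / s) ^ i := by
          refine sum_le_sum_of_subset_of_nonneg ?_ fun i _ _ => by positivity
          intro i hi
          rw [mem_Icc] at hi
          rw [mem_range]
          omega
      _ = (1 + (D : ℝ) / s) ^ s := by
          rw [add_comm (1 : ℝ), add_pow]
          refine sum_congr rfl fun i _ => ?_
          rw [one_pow]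
          ring
      _ ≤ (exp ((D : ℝ) / s)) ^ s := by
          refine pow_le_pow_left₀ (by positivity) ?_ s
          rw [add_comm]
          exact add_one_le_exp _
      _ = exp D := by
          rw [← exp_nat_mul]
          congr 1
          field_simp
  have h4 : (exp 1 * s / D) ^ D * ((D : ℝ) / s) ^ D = exp D := by
    rw [← mul_pow, ← exp_one_pow D]
    congr 1
    field_simp
  rw [← h4] at h3
  exact le_of_mul_le_mul_right h3 (by positivity)

theorem up_real {n k : ℕ} {G : SimpleGraph (Fin n)} (hn : 1 ≤ n) (h1 : G.CliqueFree k) (h2 : Gᶜ.CliqueFree k) {D : ℕ}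
    (hD1 : 1 ≤ D) (hDk : D ≤ 2 * (k - 1)) (hD : ¬ RGe G D Set.univ) : log n ≤ D * log (2 * exp 1 * k / D) := by
  have h3 := up_nat h1 h2 hD
  have h4 := nodes_le (2 * (k - 1)) D hD1 hDk
  have hD0 : (0 : ℝ) < D := by exact_mod_cast hD1
  have hn0 : (0 : ℝ) < n := by exact_mod_cast hn
  have h5 : (n : ℝ) ≤ (2 * exp 1 * k / D) ^ D := by
    calc (n : ℝ) ≤ (nodes (2 * (k - 1)) D : ℝ) := by exact_mod_cast h3
      _ ≤ _ := h4
      _ ≤ _ := by
        refine pow_le_pow_left₀ (by positivity) ?_ D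
        refine div_le_div_of_nonneg_right ?_ hD0.le
        have h6 : ((2 * (k - 1) : ℕ) : ℝ) ≤ 2 * k := by
          have : 2 * (k - 1) ≤ 2 * k := by omega
          exact_mod_cast this
        calc exp 1 * ((2 * (k - 1) : ℕ) : ℝ) ≤ exp 1 * (2 * k) := mul_le_mul_of_nonneg_left h6 (exp_pos 1).le
          _ = 2 * exp 1 * k := by ring
  have h6 := log_le_log hn0 h5
  rwa [log_pow] at h6

theorem log16 : (2.77 : ℝ) ≤ log 16 ∧ log 16 ≤ 2.7727 := by
  have h : log (16 : ℝ) = 4 * log 2 := by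
    rw [show (16 : ℝ) = 2 ^ 4 by norm_num, log_pow]
    norm_num
  have h1 := log_two_gt_d9
  have h2 := log_two_lt_d9
  constructor <;> linarith

theorem loglog {L : ℝ} (hL : 2.77 ≤ L) : 1 ≤ log L := by
  rw [le_log_iff_exp_le (by linarith)]
  have := exp_one_lt_d9
  linarith

theorem five_log {r : ℝ} (hr : 16 ≤ r) : 5 * log r ≤ r := by
  have h1 : log r = log 16 + log (r / 16) := by
    rw [← log_mul (by norm_num) (by positivity)]
    congr 1
    ring
  have h2 := log_le_sub_one_of_pos (show 0 < r / 16 by positivity)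
  have h3 := log16.2
  rw [h1]
  linarith

/-- the lower bound -/
theorem low (d k : ℕ) (hd : 1 ≤ d) (hk : 16 * d ≤ k) : ∃ (n : ℕ) (G : SimpleGraph (Fin n)), 1 ≤ n ∧
    G.CliqueFree k ∧ Gᶜ.CliqueFree k ∧ ¬ RGe G (d + 1) Set.univ ∧
    d * log ((k : ℝ) / d) - 10 * (d * log (log ((k : ℝ) / d)) + log (d + 1) * log ((k : ℝ) / d)) ≤ log n := by
  have hd0 : (0 : ℝ) < d := by exact_mod_cast hd
  have hd1 : (1 : ℝ) ≤ d := by exact_mod_cast hd
  have hk0 : (0 : ℝ) < k := by
    have : 0 < k := by omega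
    exact_mod_cast this
  have hk16 : (16 : ℝ) ≤ k := by
    have : 16 ≤ k := by omega
    exact_mod_cast this
  obtain ⟨r, hr⟩ : ∃ r : ℝ, r = (k : ℝ) / d := ⟨_, rfl⟩
  have hr16 : 16 ≤ r := by
    rw [hr, le_div_iff₀ hd0]
    exact_mod_cast hk
  obtain ⟨L, hLr⟩ : ∃ L : ℝ, L = log r := ⟨_, rfl⟩
  have hL : 2.77 ≤ L := by
    rw [hLr]
    exact log16.1.trans (log_le_log (by norm_num) hr16)
  have hlL : 1 ≤ log L := loglog hL
  have hld : log 2 ≤ log ((d : ℝ) + 1) := log_le_log (by norm_num) (by linarith)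
  have hl2 := log_two_gt_d9
  have hl2' := log_two_lt_d9
  have hld0 : 0.69 ≤ log ((d : ℝ) + 1) := by linarith
  rw [← hr, ← hLr]
  -- the trivial case
  have triv : d * L - 10 * (d * log L + log (d + 1) * L) ≤ 0 → ∃ (n : ℕ) (G : SimpleGraph (Fin n)), 1 ≤ n ∧
      G.CliqueFree k ∧ Gᶜ.CliqueFree k ∧ ¬ RGe G (d + 1) Set.univ ∧
      d * L - 10 * (d * log L + log (d + 1) * L) ≤ log n := by
    intro h
    refine ⟨1, ⊥, le_rfl, ?_, ?_, ?_, ?_⟩
    · intro s hs
      have h1 := hs.card_eq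
      have h2 := Finset.card_le_univ s
      rw [Fintype.card_fin] at h2
      omega
    · intro s hs
      have h1 := hs.card_eq
      have h2 := Finset.card_le_univ s
      rw [Fintype.card_fin] at h2
      omega
    · intro h1
      obtain ⟨T, -, hc⟩ := RGe.card _ _ _ h1
      have h2 := Finset.card_le_univ T
      rw [Fintype.card_fin, hc] at h2
      have h3 : 2 ^ 1 ≤ 2 ^ (d + 1) := Nat.pow_le_pow_right (by norm_num) (by omega)
      omega
    · simpa using h
  obtain ⟨m, hm⟩ : ∃ m : ℕ, m = Nat.clog 2 ((d + 1) ^ 2) := ⟨_, rfl⟩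
  have hm1 : (d + 1) ^ 2 ≤ 2 ^ m := by
    rw [hm]
    exact Nat.le_pow_clog (by norm_num) _
  have hm2 : (m : ℝ) ≤ 5 * log (d + 1) := by
    have h1 : 2 ^ (m - 1) < (d + 1) ^ 2 := by
      rw [hm]
      exact Nat.pow_pred_clog_lt_self (by norm_num) (by nlinarith)
    have h2 : (2 : ℝ) ^ (m - 1) < ((d : ℝ) + 1) ^ 2 := by exact_mod_cast h1
    have h3 := log_lt_log (by positivity) h2
    rw [log_pow, log_pow] at h3
    have h4 : (m : ℝ) - 1 ≤ ((m - 1 : ℕ) : ℝ) := by
      rcases Nat.eq_zero_or_pos m with h | h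
      · rw [h]; norm_num
      · rw [Nat.cast_sub h]; norm_num
    push_cast at h3
    have h5 : ((m : ℝ) - 1) * log 2 ≤ ((m - 1 : ℕ) : ℝ) * log 2 := mul_le_mul_of_nonneg_right h4 (by linarith)
    have h6 : (m : ℝ) * 0.69 ≤ m * log 2 := mul_le_mul_of_nonneg_left (by linarith) (Nat.cast_nonneg _)
    linarith
  by_cases hmd : d < m
  · refine triv ?_
    have h1 : (d : ℝ) ≤ 5 * log (d + 1) := le_trans (by exact_mod_cast hmd.le) hm2
    have e1 : (d : ℝ) * L ≤ 5 * log (d + 1) * L := mul_le_mul_of_nonneg_right h1 (by linarith)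
    have e2 : 0 ≤ (d : ℝ) * log L := mul_nonneg hd0.le (by linarith)
    have e3 : 0 ≤ log ((d : ℝ) + 1) * L := mul_nonneg (by linarith) (by linarith)
    linarith
  rw [not_lt] at hmd
  obtain ⟨q, hq⟩ : ∃ q : ℕ, q = ⌊((k : ℝ) - 1) / (2 * (d * L + 1))⌋₊ := ⟨_, rfl⟩
  have hden : 0 < 2 * (d * L + 1) := by positivity
  have hq1 : (q : ℝ) ≤ ((k : ℝ) - 1) / (2 * (d * L + 1)) := by
    rw [hq]
    exact Nat.floor_le (div_nonneg (by linarith) hden.le)
  have hrL : 5 ≤ r / L := by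
    rw [le_div_iff₀ (by linarith), hLr]
    exact five_log hr16
  have hq2 : r / (8 * L) ≤ q := by
    have h1 : ((k : ℝ) - 1) / (2 * (d * L + 1)) < q + 1 := by
      rw [hq]
      exact Nat.lt_floor_add_one _
    have h2 : 0.34 * (r / L) ≤ ((k : ℝ) - 1) / (2 * (d * L + 1)) := by
      rw [le_div_iff₀ hden]
      have h3 : (k : ℝ) = r * d := by rw [hr]; field_simp
      have h4 : 0.34 * (r / L) * (2 * (d * L + 1)) = 0.68 * (r * d) + 0.68 * (r / L) := by
        field_simp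
        ring
      rw [h4, h3]
      have h5 : 2.77 * (r / L) ≤ r * d := by
        have e1 : 2.77 * (r / L) ≤ L * (r / L) := mul_le_mul_of_nonneg_right hL (by positivity)
        have e2 : L * (r / L) = r := by field_simp
        have e3 : r * 1 ≤ r * d := mul_le_mul_of_nonneg_left hd1 (by linarith)
        linarith
      have h6 : 16 ≤ r * d := by
        have e3 : r * 1 ≤ r * d := mul_le_mul_of_nonneg_left hd1 (by linarith)
        linarith
      linarith
    have h3 : r / (8 * L) = (r / L) / 8 := by field_simp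
    rw [h3]
    linarith
  have hrL8 : 0 < r / (8 * L) := by positivity
  have hq0 : (0 : ℝ) < q := lt_of_lt_of_le hrL8 hq2
  have hq1' : 1 ≤ q := by
    have : 0 < q := by exact_mod_cast hq0
    omega
  have hlq : L - log L - log 8 ≤ log q := by
    have h1 := log_le_log hrL8 hq2
    rw [log_div (by linarith) (by positivity), log_mul (by norm_num) (by linarith), ← hLr] at h1
    linarith
  have hlq2 : log q ≤ L := by
    rw [hLr]
    refine log_le_log hq0 (hq1.trans ?_)
    rw [hr]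
    refine div_le_div₀ hk0.le (by linarith) hd0 ?_
    have e1 : (d : ℝ) * 1 ≤ d * L := mul_le_mul_of_nonneg_left (by linarith) hd0.le
    linarith
  have hlog8 : log (8 : ℝ) ≤ 2.08 := by
    rw [show (8 : ℝ) = 2 ^ 3 by norm_num, log_pow]
    push_cast
    linarith
  have hlog8' : 0 ≤ log (8 : ℝ) := log_nonneg (by norm_num)
  obtain ⟨y, hy⟩ : ∃ y : ℝ, y = ((d - m : ℕ) : ℝ) * log q - 1 := ⟨_, rfl⟩
  have hdm : ((d - m : ℕ) : ℝ) = d - m := Nat.cast_sub hmd
  -- the value of `y`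
  have hyL : d * L - 10 * (d * log L + log (d + 1) * L) ≤ y - log 2 := by
    have h1 : ((d - m : ℕ) : ℝ) * (L - log L - log 8) ≤ ((d - m : ℕ) : ℝ) * log q :=
      mul_le_mul_of_nonneg_left hlq (Nat.cast_nonneg _)
    rw [hdm] at h1 hy
    have hm0 : (0 : ℝ) ≤ m := Nat.cast_nonneg _
    have h2 : (m : ℝ) * L ≤ 5 * log (d + 1) * L := mul_le_mul_of_nonneg_right hm2 (by linarith)
    have h3 : (d : ℝ) * 1 ≤ d * log L := mul_le_mul_of_nonneg_left hlL hd0.le
    have h4 : 0.69 * 2.77 ≤ log ((d : ℝ) + 1) * L := mul_le_mul hld0 hL (by norm_num) (by linarith)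
    have h5 : 0 ≤ (m : ℝ) * (log L + log 8) := mul_nonneg hm0 (by linarith)
    have h6 : (d : ℝ) * log 8 ≤ d * 2.08 := mul_le_mul_of_nonneg_left hlog8 hd0.le
    have h7 : ((d : ℝ) - m) * (L - log L - log 8) = d * L - d * log L - d * log 8 - m * L + m * (log L + log 8) := by ring
    rw [h7] at h1
    rw [hy]
    linarith
  by_cases hy0 : y < 0
  · refine triv (hyL.trans ?_)
    linarith
  rw [not_lt] at hy0
  obtain ⟨n, hn⟩ : ∃ n : ℕ, n = ⌊exp y⌋₊ := ⟨_, rfl⟩
  have hey : 1 ≤ exp y := one_le_exp hy0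
  have hn1 : 1 ≤ n := by
    rw [hn]
    exact Nat.le_floor (by exact_mod_cast hey)
  have hn0 : (0 : ℝ) < n := by exact_mod_cast hn1
  have hn2 : (n : ℝ) ≤ exp y := by
    rw [hn]
    exact Nat.floor_le (exp_pos y).le
  have hn3 : exp y ≤ 2 * n := by
    have h1 : exp y < n + 1 := by
      rw [hn]
      exact Nat.lt_floor_add_one _
    have h2 : (1 : ℝ) ≤ n := by exact_mod_cast hn1
    linarith
  have hxy : log n ≤ y := by
    rw [log_le_iff_le_exp hn0]
    exact hn2
  have hyx : y - log 2 ≤ log n := by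
    have h1 := log_le_log (exp_pos y) hn3
    rw [log_exp, log_mul (by norm_num) hn0.ne'] at h1
    linarith
  have hx0 : 0 ≤ log n := log_nonneg (by exact_mod_cast hn1)
  -- `q ≥ 2`
  have hlq0 : 0 < log q := by
    by_contra h
    rw [not_lt] at h
    have h1 : ((d - m : ℕ) : ℝ) * log q ≤ 0 := mul_nonpos_of_nonneg_of_nonpos (Nat.cast_nonneg _) h
    linarith
  have hq2' : 2 ≤ q := by
    by_contra h
    have : q = 1 := by omega
    rw [this] at hlq0
    simp at hlq0
  have hqq : (2 : ℝ) ≤ q := by exact_mod_cast hq2'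
  obtain ⟨t, ht⟩ : ∃ t : ℕ, t = d + 1 - m := ⟨_, rfl⟩
  have ht1 : 1 ≤ t := by omega
  have htm : t + m = d + 1 := by omega
  have htr : ((d - m : ℕ) : ℝ) = t - 1 := by
    rw [show d - m = t - 1 by omega, Nat.cast_sub ht1]
    norm_num
  have hMt : (t : ℝ) ^ 2 - t ≤ ((2 ^ m : ℕ) : ℝ) := by
    have h1 : t ^ 2 ≤ 2 ^ m := le_trans (Nat.pow_le_pow_left (by omega) 2) hm1
    have h2 : (t : ℝ) ^ 2 ≤ ((2 ^ m : ℕ) : ℝ) := by exact_mod_cast h1
    have h3 : (0 : ℝ) ≤ t := Nat.cast_nonneg _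
    linarith
  have hxk : log n ≤ d * L := by
    have h1 : ((d - m : ℕ) : ℝ) * log q ≤ d * L := by
      refine mul_le_mul ?_ hlq2 hlq0.le hd0.le
      rw [hdm]
      have : (0 : ℝ) ≤ m := Nat.cast_nonneg _
      linarith
    linarith
  have hkq : d * L + 1 ≤ ((k : ℝ) - 1) / (2 * q) := by
    rw [le_div_iff₀ (by positivity)]
    rw [le_div_iff₀ hden] at hq1
    linarith
  -- the independent sets
  have hch : ((k.choose 2 : ℕ) : ℝ) = k * (k - 1) / 2 := Nat.cast_choose_two ℝ k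
  have hqi : (0 : ℝ) ≤ 1 - 1 / (q : ℝ) := by
    rw [sub_nonneg, div_le_one hq0]
    linarith
  have hI : (n.choose k : ℝ) * (1 - 1 / (q : ℝ)) ^ (k.choose 2) ≤ exp (-16) := by
    have h1 : (1 - 1 / (q : ℝ)) ^ (k.choose 2) ≤ exp (-(1 / q) * (k * (k - 1) / 2)) := by
      calc (1 - 1 / (q : ℝ)) ^ (k.choose 2) ≤ (exp (-(1 / q))) ^ (k.choose 2) := by
            refine pow_le_pow_left₀ hqi ?_ _
            have := add_one_le_exp (-(1 / (q : ℝ)))
            linarith
        _ = exp (-(1 / q) * (k * (k - 1) / 2)) := by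
            rw [← exp_nat_mul, hch]
            congr 1
            ring
    have h2 : (n.choose k : ℝ) ≤ exp (k * log n) := by
      calc (n.choose k : ℝ) ≤ (n : ℝ) ^ k := by exact_mod_cast Nat.choose_le_pow n k
        _ = exp (k * log n) := by rw [exp_nat_mul, exp_log hn0]
    calc (n.choose k : ℝ) * (1 - 1 / (q : ℝ)) ^ (k.choose 2) ≤ exp (k * log n) * exp (-(1 / q) * (k * (k - 1) / 2)) :=
          mul_le_mul h2 h1 (by positivity) (exp_pos _).le
      _ = exp (k * log n + -(1 / q) * (k * (k - 1) / 2)) := by rw [exp_add]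
      _ ≤ exp (-16) := by
          rw [exp_le_exp]
          have h3 : k * log n + -(1 / q) * (k * (k - 1) / 2) = k * (log n - (k - 1) / (2 * q)) := by
            field_simp
            ring
          rw [h3]
          have h4 : (k : ℝ) * (log n - (k - 1) / (2 * q)) ≤ k * (-1) := mul_le_mul_of_nonneg_left (by linarith) hk0.le
          linarith
  have hC : (n.choose k : ℝ) * (1 / (q : ℝ)) ^ (k.choose 2) ≤ exp (-16) := by
    refine le_trans (mul_le_mul_of_nonneg_left (pow_le_pow_left₀ (by positivity) ?_ _) (Nat.cast_nonneg _)) hI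
    have : 1 / (q : ℝ) ≤ 1 / 2 := one_div_le_one_div_of_le (by norm_num) hqq
    linarith
  have hB : (n : ℝ) ^ t * (n : ℝ) ^ (2 ^ m) * (1 / (q : ℝ)) ^ (t * 2 ^ m) ≤ exp (-2) := by
    have h1 : (n : ℝ) ^ t * (n : ℝ) ^ (2 ^ m) * (1 / (q : ℝ)) ^ (t * 2 ^ m) =
        exp ((t + ((2 ^ m : ℕ) : ℝ)) * log n - t * ((2 ^ m : ℕ) : ℝ) * log q) := by
      rw [← pow_add, one_div, inv_pow, sub_eq_add_neg, exp_add, exp_neg]
      congr 1
      · rw [← Nat.cast_add, exp_nat_mul, exp_log hn0]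
      · congr 1
        rw [← Nat.cast_mul, exp_nat_mul, exp_log hq0]
    rw [h1, exp_le_exp]
    have h2 : (1 : ℝ) ≤ ((2 ^ m : ℕ) : ℝ) := by exact_mod_cast Nat.one_le_two_pow
    have h3 : (1 : ℝ) ≤ t := by exact_mod_cast ht1
    have h4 : log n + 1 ≤ (t - 1) * log q := by
      rw [htr] at hy
      linarith
    have h5 : (t + ((2 ^ m : ℕ) : ℝ)) * (log n + 1) ≤ (t + ((2 ^ m : ℕ) : ℝ)) * ((t - 1) * log q) :=
      mul_le_mul_of_nonneg_left h4 (by linarith)
    have h6 : (t + ((2 ^ m : ℕ) : ℝ)) * (t - 1) ≤ t * ((2 ^ m : ℕ) : ℝ) := by linarith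
    have h7 := mul_le_mul_of_nonneg_right h6 hlq0.le
    linarith
  obtain ⟨G, hG1, hG2, hG3⟩ := exists_graph n k t (2 ^ m) q hq1' (by
    have h1 : exp (-16 : ℝ) ≤ exp (-2) := by rw [exp_le_exp]; norm_num
    have h2 : exp (-2 : ℝ) < 1 / 3 := by
      have h3 : exp (-2 : ℝ) = (exp 1)⁻¹ * (exp 1)⁻¹ := by
        rw [← exp_neg, ← exp_add]
        norm_num
      have h4 := exp_one_gt_d9
      have h5 : (exp 1)⁻¹ ≤ (1 / 2 : ℝ) := by
        rw [inv_eq_one_div]
        exact one_div_le_one_div_of_le (by norm_num) (by linarith)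
      have h6 : (0 : ℝ) ≤ (exp 1)⁻¹ := by positivity
      rw [h3]
      have h7 : (exp 1)⁻¹ * (exp 1)⁻¹ ≤ (1 / 2 : ℝ) * (1 / 2) := mul_le_mul h5 h5 h6 (by norm_num)
      linarith
    linarith)
  refine ⟨n, G, hn1, hG1, hG2, ?_, hyL.trans hyx⟩
  rw [← htm]
  exact not_rge G t m hG3

end Pool.Agent.Z72.LD
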