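import Mathlib

/-!
# Littlestone dimension of graphs: recursion, upper bound for the number of vertices, bicliques
-/

set_option autoImplicit false

namespace Pool.Agent.Z72.LD

open Finset

variable {V : Type}

/-- The binary tree `t` of depth `D` is shattered by the neighbourhoods of vertices in `S`. -/
def ShatIn (G : SimpleGraph V) (S : Set V) (D : ℕ) (t : List Bool → V) : Prop :=
  ∀ b : List Bool, b.length = D → ∃ v ∈ S, ∀ i < D, (G.Adj v (t (b.take i)) ↔ b[i]? = some true)

/-- The same by recursion. -/
def RGe (G : SimpleGraph V) : ℕ → Set V → Prop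
  | 0, S => S.Nonempty
  | D + 1, S => ∃ x, RGe G D (S ∩ G.neighborSet x) ∧ RGe G D (S \ G.neighborSet x)

theorem shatIn_iff (G : SimpleGraph V) : ∀ (D : ℕ) (S : Set V), (∃ t, ShatIn G S D t) ↔ RGe G D S := by
  intro D
  induction D with
  | zero =>
    intro S
    constructor
    · rintro ⟨t, ht⟩
      obtain ⟨v, hv, -⟩ := ht [] rfl
      exact ⟨v, hv⟩
    · rintro ⟨v, hv⟩
      exact ⟨fun _ => v, fun b _ => ⟨v, hv, fun i hi => absurd hi (Nat.not_lt_zero i)⟩⟩
  | succ D ih =>
    intro S
    constructor
    · rintro ⟨t, ht⟩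
      refine ⟨t [], ?_, ?_⟩
      · rw [← ih]
        refine ⟨fun l => t (true :: l), fun b hb => ?_⟩
        obtain ⟨v, hv, h⟩ := ht (true :: b) (by simp [hb])
        refine ⟨v, ⟨hv, ?_⟩, fun i hi => ?_⟩
        · have := h 0 (Nat.succ_pos D)
          simp only [List.take_zero, List.getElem?_cons_zero] at this
          exact (this.2 trivial).symm
        · have := h (i + 1) (Nat.succ_lt_succ hi)
          simpa using this
      · rw [← ih]
        refine ⟨fun l => t (false :: l), fun b hb => ?_⟩
        obtain ⟨v, hv, h⟩ := ht (false :: b) (by simp [hb])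
        refine ⟨v, ⟨hv, ?_⟩, fun i hi => ?_⟩
        · have := h 0 (Nat.succ_pos D)
          simp only [List.take_zero, List.getElem?_cons_zero] at this
          intro hadj
          have h2 := this.1 hadj.symm
          simp at h2
        · have := h (i + 1) (Nat.succ_lt_succ hi)
          simpa using this
    · rintro ⟨x, h1, h2⟩
      rw [← ih] at h1 h2
      obtain ⟨t1, ht1⟩ := h1
      obtain ⟨t2, ht2⟩ := h2
      refine ⟨fun l => match l with
        | [] => x
        | true :: l' => t1 l'
        | false :: l' => t2 l', fun b hb => ?_⟩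
      match b, hb with
      | true :: b', hb =>
        obtain ⟨v, hv, h⟩ := ht1 b' (by simpa using hb)
        refine ⟨v, hv.1, fun i hi => ?_⟩
        match i, hi with
        | 0, _ =>
          simp only [List.take_zero, List.getElem?_cons_zero, iff_true]
          exact hv.2.symm
        | i + 1, hi =>
          have := h i (Nat.lt_of_succ_lt_succ hi)
          simpa using this
      | false :: b', hb =>
        obtain ⟨v, hv, h⟩ := ht2 b' (by simpa using hb)
        refine ⟨v, hv.1, fun i hi => ?_⟩
        match i, hi with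
        | 0, _ =>
          simp only [List.take_zero, List.getElem?_cons_zero]
          constructor
          · intro hadj
            exact absurd hadj.symm hv.2
          · intro h0
            simp at h0
        | i + 1, hi =>
          have := h i (Nat.lt_of_succ_lt_succ hi)
          simpa using this

theorem RGe.mono (G : SimpleGraph V) : ∀ (D : ℕ) (S S' : Set V), S ⊆ S' → RGe G D S → RGe G D S' := by
  intro D
  induction D with
  | zero => exact fun S S' h h1 => Set.Nonempty.mono h h1
  | succ D ih =>
    rintro S S' h ⟨x, h1, h2⟩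
    exact ⟨x, ih _ _ (Set.inter_subset_inter_left _ h) h1, ih _ _ (Set.sdiff_subset_sdiff_left h) h2⟩

theorem RGe.pred (G : SimpleGraph V) (D : ℕ) (S : Set V) (h : RGe G (D + 1) S) : RGe G D S := by
  obtain ⟨x, h1, -⟩ := h
  exact RGe.mono G D _ _ Set.inter_subset_left h1

theorem RGe.le (G : SimpleGraph V) {D D' : ℕ} (S : Set V) (hD : D' ≤ D) (h : RGe G D S) : RGe G D' S := by
  induction D, hD using Nat.le_induction with
  | base => exact h
  | succ D _ ih => exact ih (RGe.pred G D S h)

/-- a set of rank at least `D` has at least `2 ^ D` elements -/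
theorem RGe.card [Fintype V] [DecidableEq V] (G : SimpleGraph V) : ∀ (D : ℕ) (S : Set V), RGe G D S →
    ∃ T : Finset V, (T : Set V) ⊆ S ∧ T.card = 2 ^ D := by
  intro D
  induction D with
  | zero =>
    rintro S ⟨v, hv⟩
    exact ⟨{v}, by simpa using hv, by simp⟩
  | succ D ih =>
    rintro S ⟨x, h1, h2⟩
    obtain ⟨T1, hT1, hc1⟩ := ih _ h1
    obtain ⟨T2, hT2, hc2⟩ := ih _ h2
    refine ⟨T1 ∪ T2, ?_, ?_⟩
    · rw [coe_union]
      exact Set.union_subset (hT1.trans Set.inter_subset_left) (hT2.trans Set.sdiff_subset)
    · rw [card_union_of_disjoint, hc1, hc2]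
      · ring
      · rw [Finset.disjoint_left]
        intro a ha hb
        exact (hT2 hb).2 (hT1 ha).2

/-- the number of nodes -/
def nodes (s d : ℕ) : ℕ := ∑ i ∈ Icc 1 d, s.choose i

theorem nodes_succ (s d : ℕ) : nodes (s + 1) (d + 1) = 1 + nodes s d + nodes s (d + 1) := by
  unfold nodes
  have h1 : ∑ i ∈ Icc 1 (d + 1), (s + 1).choose i = ∑ i ∈ Icc 1 (d + 1), (s.choose (i - 1) + s.choose i) := by
    refine sum_congr rfl fun i hi => ?_
    rw [mem_Icc] at hi
    obtain ⟨j, rfl⟩ : ∃ j, i = j + 1 := ⟨i - 1, by omega⟩
    rw [Nat.choose_succ_succ, Nat.add_sub_cancel]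
  rw [h1, sum_add_distrib]
  congr 1
  have h2 : ∑ i ∈ Icc 1 (d + 1), s.choose (i - 1) = ∑ i ∈ range (d + 1), s.choose i := by
    rw [show (Icc 1 (d + 1)) = Ico 1 (d + 2) by ext; simp only [mem_Icc, mem_Ico]; omega]
    rw [Finset.sum_Ico_eq_sum_range]
    refine sum_congr (by congr 1) fun i _ => ?_
    congr 1
    omega
  rw [h2, Finset.sum_range_succ']
  rw [show (Icc 1 d) = Ico 1 (d + 1) by ext; simp only [mem_Icc, mem_Ico]; omega]
  rw [Finset.sum_Ico_eq_sum_range]
  rw [Nat.choose_zero_right, add_comm]
  congr 1
  refine sum_congr (by congr 1) fun i _ => ?_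
  congr 1
  omega

theorem nodes_mono (s : ℕ) {d d' : ℕ} (h : d ≤ d') : nodes s d ≤ nodes s d' :=
  sum_le_sum_of_subset (Icc_subset_Icc le_rfl h)

/-- **the upper bound** -/
theorem upper [DecidableEq V] (G : SimpleGraph V) [DecidableRel G.Adj] :
    ∀ (s a b d : ℕ) (S : Finset V), a + b = s → (∀ T ⊆ S, G.IsClique (T : Set V) → T.card ≤ a) →
      (∀ T ⊆ S, Gᶜ.IsClique (T : Set V) → T.card ≤ b) → ¬ RGe G d S → S.card ≤ nodes s d := by
  intro s
  induction s with
  | zero =>
    intro a b d S hs ha hb _
    rcases S.eq_empty_or_nonempty with rfl | ⟨x, hx⟩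
    · simp
    · exfalso
      have := ha {x} (by simpa using hx) (by simp)
      simp at this
      omega
  | succ s ih =>
    intro a b d S hs ha hb hd
    rcases S.eq_empty_or_nonempty with rfl | ⟨x, hx⟩
    · simp
    have ha1 : 1 ≤ a := by
      have := ha {x} (by simpa using hx) (by simp)
      simpa using this
    have hb1 : 1 ≤ b := by
      have := hb {x} (by simpa using hx) (by simp)
      simpa using this
    have hd1 : d ≠ 0 := by
      rintro rfl
      exact hd ⟨x, by simpa using hx⟩
    obtain ⟨d', rfl⟩ : ∃ d', d = d' + 1 := ⟨d - 1, by omega⟩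
    set SR := (S.erase x).filter (fun y => G.Adj x y) with hSR
    set SB := (S.erase x).filter (fun y => ¬ G.Adj x y) with hSB
    have hcard : S.card = 1 + SR.card + SB.card := by
      have h1 : SR.card + SB.card = (S.erase x).card := Finset.card_filter_add_card_filter_not _
      have h2 := card_erase_add_one hx
      omega
    have hR : ∀ T ⊆ SR, G.IsClique (T : Set V) → T.card ≤ a - 1 := by
      intro T hT hc
      have hxT : x ∉ T := fun h => by
        have := hT h
        rw [hSR, mem_filter, mem_erase] at this
        exact this.1.1 rfl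
      have h1 := ha (insert x T) (by
        intro y hy
        rw [mem_insert] at hy
        rcases hy with rfl | hy
        · exact hx
        · have := hT hy
          rw [hSR, mem_filter, mem_erase] at this
          exact this.1.2) (by
        rw [coe_insert, SimpleGraph.isClique_insert]
        refine ⟨hc, fun y hy _ => ?_⟩
        have := hT hy
        rw [hSR, mem_filter] at this
        exact this.2)
      rw [card_insert_of_notMem hxT] at h1
      omega
    have hB : ∀ T ⊆ SB, Gᶜ.IsClique (T : Set V) → T.card ≤ b - 1 := by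
      intro T hT hc
      have hxT : x ∉ T := fun h => by
        have := hT h
        rw [hSB, mem_filter, mem_erase] at this
        exact this.1.1 rfl
      have h1 := hb (insert x T) (by
        intro y hy
        rw [mem_insert] at hy
        rcases hy with rfl | hy
        · exact hx
        · have := hT hy
          rw [hSB, mem_filter, mem_erase] at this
          exact this.1.2) (by
        rw [coe_insert, SimpleGraph.isClique_insert]
        refine ⟨hc, fun y hy hxy => ?_⟩
        have := hT hy
        rw [hSB, mem_filter] at this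
        rw [SimpleGraph.compl_adj]
        exact ⟨hxy, this.2⟩)
      rw [card_insert_of_notMem hxT] at h1
      omega
    have hRS : (SR : Set V) ⊆ (S : Set V) ∩ G.neighborSet x := by
      intro y hy
      rw [mem_coe, hSR, mem_filter, mem_erase] at hy
      exact ⟨hy.1.2, hy.2⟩
    have hBS : (SB : Set V) ⊆ (S : Set V) \ G.neighborSet x := by
      intro y hy
      rw [mem_coe, hSB, mem_filter, mem_erase] at hy
      exact ⟨hy.1.2, hy.2⟩
    have hRd : ¬ RGe G (d' + 1) SR := fun h => hd (RGe.mono G _ _ _ (hRS.trans Set.inter_subset_left) h)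
    have hBd : ¬ RGe G (d' + 1) SB := fun h => hd (RGe.mono G _ _ _ (hBS.trans Set.sdiff_subset) h)
    have hR1 := ih (a - 1) b (d' + 1) SR (by omega) hR (fun T hT h => hb T (hT.trans (by
      rw [hSR]; exact (filter_subset _ _).trans (erase_subset _ _))) h) hRd
    have hB1 := ih a (b - 1) (d' + 1) SB (by omega) (fun T hT h => ha T (hT.trans (by
      rw [hSB]; exact (filter_subset _ _).trans (erase_subset _ _))) h) hB hBd
    rw [nodes_succ, hcard]
    by_cases h : RGe G d' SR
    · have h2 : ¬ RGe G d' SB := fun h2 => hd ⟨x, RGe.mono G _ _ _ hRS h, RGe.mono G _ _ _ hBS h2⟩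
      have hB2 := ih a (b - 1) d' SB (by omega) (fun T hT h => ha T (hT.trans (by
        rw [hSB]; exact (filter_subset _ _).trans (erase_subset _ _))) h) hB h2
      omega
    · have hR2 := ih (a - 1) b d' SR (by omega) hR (fun T hT h => hb T (hT.trans (by
        rw [hSR]; exact (filter_subset _ _).trans (erase_subset _ _))) h) h
      omega

/-- **a deep shattered tree contains a large complete bipartite graph** -/
theorem biclique [DecidableEq V] (G : SimpleGraph V) : ∀ (t m : ℕ) (S : Set V), RGe G (t + m) S →
    ∃ (X : Finset V) (S' : Set V), X.card = t ∧ S' ⊆ S ∧ (∀ x ∈ X, ∀ y ∈ S', G.Adj x y) ∧ RGe G m S' ∧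
      ∀ x ∈ X, ∃ v ∈ S, ¬ G.Adj x v := by
  intro t
  induction t with
  | zero =>
    intro m S h
    rw [zero_add] at h
    exact ⟨∅, S, by simp, subset_rfl, by simp, h, by simp⟩
  | succ t ih =>
    intro m S h
    rw [show t + 1 + m = t + m + 1 by ring] at h
    obtain ⟨x, h1, h2⟩ := h
    obtain ⟨X, S', hX, hS, hadj, hm, hne⟩ := ih m _ h1
    have hx : x ∉ X := by
      intro hx
      obtain ⟨v, hv, hv2⟩ := hne x hx
      exact hv2 hv.2
    obtain ⟨v, hv⟩ := RGe.le G _ (Nat.zero_le _) h2
    refine ⟨insert x X, S', by rw [card_insert_of_notMem hx, hX], hS.trans Set.inter_subset_left, ?_, hm, ?_⟩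
    · intro y hy z hz
      rw [mem_insert] at hy
      rcases hy with rfl | hy
      · exact (hS hz).2
      · exact hadj y hy z hz
    · intro y hy
      rw [mem_insert] at hy
      rcases hy with rfl | hy
      · exact ⟨v, hv.1, hv.2⟩
      · obtain ⟨w, hw, hw2⟩ := hne y hy
        exact ⟨w, hw.1, hw2⟩

end Pool.Agent.Z72.LD
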