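import Pool.Agent.Z72.LD.Asy
import Pool.Agent.H818R2.Ram.Erdos

/-!
# The order of the colourings of bounded Littlestone dimension
-/

set_option autoImplicit false

namespace Pool.Agent.Z72.LD

open Finset Real Filter Topology

/-- the admissible numbers of vertices -/
def Adm (k d : ℕ) : Set ℕ := {n | ∃ G : SimpleGraph (Fin n), G.CliqueFree k ∧ Gᶜ.CliqueFree k ∧ ¬ RGe G (d + 1) Set.univ}

/-- the largest one -/
noncomputable def ord (k d : ℕ) : ℕ := sSup (Adm k d)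

theorem adm_le {k d n : ℕ} (h : n ∈ Adm k d) : n ≤ nodes (2 * (k - 1)) (d + 1) := by
  obtain ⟨G, h1, h2, h3⟩ := h
  exact up_nat h1 h2 h3

theorem adm_bdd (k d : ℕ) : BddAbove (Adm k d) := ⟨_, fun _ h => adm_le h⟩

theorem adm_ne {k : ℕ} (hk : 1 ≤ k) (d : ℕ) : (Adm k d).Nonempty := by
  refine ⟨0, ⊥, ?_, ?_, ?_⟩
  · intro s hs
    have h1 := hs.card_eq
    have h2 := Finset.card_le_univ s
    rw [Fintype.card_fin] at h2
    omega
  · intro s hs
    have h1 := hs.card_eq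
    have h2 := Finset.card_le_univ s
    rw [Fintype.card_fin] at h2
    omega
  · intro h
    obtain ⟨T, -, hc⟩ := RGe.card _ _ _ h
    have h2 := Finset.card_le_univ T
    rw [Fintype.card_fin, hc] at h2
    have := Nat.one_le_two_pow (n := d + 1)
    omega

theorem ord_mem {k : ℕ} (hk : 1 ≤ k) (d : ℕ) : ord k d ∈ Adm k d := Nat.sSup_mem (adm_ne hk d) (adm_bdd k d)

theorem le_ord {k d n : ℕ} (h : n ∈ Adm k d) : n ≤ ord k d := le_csSup (adm_bdd k d) h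

/-- **the order up to a factor near one in the exponent** -/
theorem ord_near (d k : ℕ) (hd : 1 ≤ d) (hk : 16 * d ≤ k) :
    1 ≤ ord k d ∧ |log (ord k d) - d * log ((k : ℝ) / d)| ≤
      10 * (d * log (log ((k : ℝ) / d)) + log (d + 1) * log ((k : ℝ) / d)) := by
  obtain ⟨n, G, hn, h1, h2, h3, h4⟩ := low d k hd hk
  have h5 : n ≤ ord k d := le_ord ⟨G, h1, h2, h3⟩
  have h6 : 1 ≤ ord k d := hn.trans h5
  refine ⟨h6, ?_⟩
  have hn0 : (0 : ℝ) < n := by exact_mod_cast hn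
  have h7 : log n ≤ log (ord k d) := log_le_log hn0 (by exact_mod_cast h5)
  obtain ⟨G', g1, g2, g3⟩ := ord_mem (show 1 ≤ k by omega) d
  have h8 := up_real h6 g1 g2 (show 1 ≤ d + 1 by omega) (by omega) g3
  have hd0 : (0 : ℝ) < d := by exact_mod_cast hd
  have hd1 : (1 : ℝ) ≤ d := by exact_mod_cast hd
  have hk0 : (0 : ℝ) < k := by
    have : 0 < k := by omega
    exact_mod_cast this
  obtain ⟨L, hL⟩ : ∃ L : ℝ, L = log ((k : ℝ) / d) := ⟨_, rfl⟩
  have hL2 : 2.77 ≤ L := by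
    rw [hL]
    refine log16.1.trans (log_le_log (by norm_num) ?_)
    rw [le_div_iff₀ hd0]
    exact_mod_cast hk
  have hlL := loglog hL2
  have h9 : log (2 * exp 1 * k / ((d + 1 : ℕ) : ℝ)) ≤ 1.7 + L := by
    have e1 : 2 * exp 1 * (k : ℝ) / ((d + 1 : ℕ) : ℝ) ≤ 2 * exp 1 * ((k : ℝ) / d) := by
      rw [← mul_div_assoc]
      refine div_le_div_of_nonneg_left (by positivity) hd0 ?_
      push_cast
      linarith
    have e2 := log_le_log (by positivity) e1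
    rw [log_mul (by positivity) (by positivity), log_mul (by norm_num) (exp_pos 1).ne', log_exp, ← hL] at e2
    have e3 := log_two_lt_d9
    linarith
  have h10 : log (ord k d) ≤ (d + 1) * (1.7 + L) := by
    refine h8.trans ?_
    push_cast
    push_cast at h9
    exact mul_le_mul_of_nonneg_left h9 (by linarith)
  rw [← hL] at h4 ⊢
  have hld : 0.69 ≤ log ((d : ℝ) + 1) := by
    have e1 := log_le_log (show (0 : ℝ) < 2 by norm_num) (show (2 : ℝ) ≤ (d : ℝ) + 1 by linarith)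
    have e2 := log_two_gt_d9
    linarith
  have e4 : (d : ℝ) * 1 ≤ d * log L := mul_le_mul_of_nonneg_left hlL hd0.le
  have e5 : 0.69 * L ≤ log ((d : ℝ) + 1) * L := mul_le_mul_of_nonneg_right hld (by linarith)
  rw [abs_le]
  constructor
  · linarith
  · linarith

/-- the growth rate -/
theorem rate (γ : ℝ) (hγ : 0 < γ) (hγ2 : γ ≤ 1 / 16) : ∃ K : ℕ, ∀ k : ℕ, K ≤ k →
    |log (ord k ⌊γ * k⌋₊) / k - γ * log (1 / γ)| ≤ 11 * (γ * log (log (1 / γ))) := by
  obtain ⟨Λ, hΛ⟩ : ∃ Λ : ℝ, Λ = log (1 / γ) := ⟨_, rfl⟩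
  have hγi : 16 ≤ 1 / γ := by
    rw [le_div_iff₀ hγ]
    linarith
  have hΛ2 : 2.77 ≤ Λ := by
    rw [hΛ]
    exact log16.1.trans (log_le_log (by norm_num) hγi)
  have hlΛ := loglog hΛ2
  have t1 : Tendsto (fun k : ℕ => ((⌊γ * k⌋₊ : ℕ) : ℝ) / k) atTop (𝓝 γ) :=
    (tendsto_nat_floor_mul_div_atTop hγ.le).comp tendsto_natCast_atTop_atTop
  have t2 : Tendsto (fun k : ℕ => log ((k : ℝ) / (⌊γ * k⌋₊ : ℕ))) atTop (𝓝 Λ) := by
    have e1 : Tendsto (fun k : ℕ => log ((((⌊γ * k⌋₊ : ℕ) : ℝ) / k)⁻¹)) atTop (𝓝 (log (γ⁻¹))) :=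
      (t1.inv₀ hγ.ne').log (by positivity)
    rw [hΛ, one_div]
    refine e1.congr fun k => ?_
    rw [inv_div]
  have t3 : Tendsto (fun k : ℕ => log ((k : ℝ) + 1) / k) atTop (𝓝 0) := by
    have e1 := (tendsto_pow_log_div_mul_add_atTop 1 (-1) 1 one_ne_zero).comp
      (tendsto_atTop_add_const_right atTop (1 : ℝ) tendsto_natCast_atTop_atTop)
    refine e1.congr fun k => ?_
    simp only [Function.comp]
    rw [pow_one]
    congr 1
    ring
  have t4 : Tendsto (fun k : ℕ => |((⌊γ * k⌋₊ : ℕ) : ℝ) / k * log ((k : ℝ) / (⌊γ * k⌋₊ : ℕ)) - γ * Λ| +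
      10 * (((⌊γ * k⌋₊ : ℕ) : ℝ) / k * log (log ((k : ℝ) / (⌊γ * k⌋₊ : ℕ))) +
        log ((k : ℝ) + 1) / k * log ((k : ℝ) / (⌊γ * k⌋₊ : ℕ)))) atTop
      (𝓝 (|γ * Λ - γ * Λ| + 10 * (γ * log Λ + 0 * Λ))) :=
    (((t1.mul t2).sub_const _).abs).add (((t1.mul (t2.log (by linarith))).add (t3.mul t2)).const_mul 10)
  have h1 : |γ * Λ - γ * Λ| + 10 * (γ * log Λ + 0 * Λ) < 11 * (γ * log Λ) := by
    have : 0 < γ * log Λ := by positivity
    rw [sub_self, abs_zero]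
    linarith
  have h2 := (t4.eventually_lt_const h1).and (eventually_ge_atTop ⌈1 / γ⌉₊)
  rw [eventually_atTop] at h2
  obtain ⟨K, hK⟩ := h2
  refine ⟨K, fun k hk => ?_⟩
  obtain ⟨h3, h4⟩ := hK k hk
  have h5 : 1 / γ ≤ k := (Nat.le_ceil _).trans (by exact_mod_cast h4)
  have hk0 : (0 : ℝ) < k := by linarith
  have hd1 : 1 ≤ ⌊γ * k⌋₊ := by
    refine Nat.le_floor ?_
    rw [div_le_iff₀ hγ] at h5
    push_cast
    linarith
  have hfl : ((⌊γ * k⌋₊ : ℕ) : ℝ) ≤ γ * k := Nat.floor_le (by positivity)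
  have hdk : 16 * ⌊γ * k⌋₊ ≤ k := by
    have : (16 : ℝ) * (⌊γ * k⌋₊ : ℕ) ≤ k := by nlinarith
    exact_mod_cast this
  obtain ⟨-, h6⟩ := ord_near _ k hd1 hdk
  rw [← hΛ]
  refine le_of_lt (lt_of_le_of_lt ?_ h3)
  have hd0 : (0 : ℝ) < (⌊γ * k⌋₊ : ℕ) := by exact_mod_cast hd1
  have hLp : 0 ≤ log ((k : ℝ) / (⌊γ * k⌋₊ : ℕ)) := by
    refine log_nonneg ?_
    rw [le_div_iff₀ hd0]
    have : ((⌊γ * k⌋₊ : ℕ) : ℝ) ≤ k := by
      have : ⌊γ * k⌋₊ ≤ k := by omega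
      exact_mod_cast this
    linarith
  have h7 : log (ord k ⌊γ * k⌋₊) / k - γ * Λ =
      (((⌊γ * k⌋₊ : ℕ) : ℝ) / k * log ((k : ℝ) / (⌊γ * k⌋₊ : ℕ)) - γ * Λ) +
      (log (ord k ⌊γ * k⌋₊) - (⌊γ * k⌋₊ : ℕ) * log ((k : ℝ) / (⌊γ * k⌋₊ : ℕ))) / k := by
    field_simp
    ring
  rw [h7]
  refine (abs_add_le _ _).trans (add_le_add_right ?_ _)
  rw [abs_div, abs_of_pos hk0, div_le_iff₀ hk0]
  refine h6.trans ?_
  have h8 : log (((⌊γ * k⌋₊ : ℕ) : ℝ) + 1) ≤ log ((k : ℝ) + 1) := by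
    refine log_le_log (by positivity) ?_
    have : ((⌊γ * k⌋₊ : ℕ) : ℝ) ≤ k := by
      have : ⌊γ * k⌋₊ ≤ k := by omega
      exact_mod_cast this
    linarith
  have h9 : 10 * (((⌊γ * k⌋₊ : ℕ) : ℝ) / k * log (log ((k : ℝ) / (⌊γ * k⌋₊ : ℕ))) +
        log ((k : ℝ) + 1) / k * log ((k : ℝ) / (⌊γ * k⌋₊ : ℕ))) * k =
      10 * ((⌊γ * k⌋₊ : ℕ) * log (log ((k : ℝ) / (⌊γ * k⌋₊ : ℕ))) + log ((k : ℝ) + 1) * log ((k : ℝ) / (⌊γ * k⌋₊ : ℕ))) := by
    field_simp
  rw [h9]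
  have h10 := mul_le_mul_of_nonneg_right h8 hLp
  linarith

/-- the general bound -/
theorem gen {n k : ℕ} {G : SimpleGraph (Fin n)} (hn : 1 ≤ n) (h1 : G.CliqueFree k) (h2 : Gᶜ.CliqueFree k) (c : ℝ) (hc : 0 < c) (hc2 : c ≤ 1 / 2)
    {D : ℕ} (hD : (D : ℝ) ≤ c * k) (h3 : ¬ RGe G D Set.univ) : log n ≤ k * (c * log (2 * exp 1 / c)) := by
  have hD1 : 1 ≤ D := by
    by_contra h
    have : D = 0 := by omega
    rw [this] at h3
    exact h3 ⟨⟨0, hn⟩, trivial⟩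
  have hD0 : (1 : ℝ) ≤ D := by exact_mod_cast hD1
  have hk0 : (0 : ℝ) ≤ k := Nat.cast_nonneg _
  have hk : (2 : ℝ) ≤ k := by nlinarith
  have hk2 : 2 ≤ k := by exact_mod_cast hk
  have hDk : D ≤ 2 * (k - 1) := by
    have e1 : (D : ℝ) ≤ ((2 * (k - 1) : ℕ) : ℝ) := by
      push_cast [Nat.cast_sub (show 1 ≤ k by omega)]
      nlinarith
    exact_mod_cast e1
  have h4 := up_real hn h1 h2 hD1 hDk h3
  refine h4.trans ?_
  have hck : 0 < c * k := by positivity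
  have e1 : log (2 * exp 1 * k / D) = log (2 * exp 1 / c) + log (c * k / D) := by
    rw [← log_mul (by positivity) (by positivity)]
    congr 1
    field_simp
  have e2 : log (c * k / D) ≤ c * k / D - 1 := log_le_sub_one_of_pos (by positivity)
  have e3 : (D : ℝ) * (c * k / D - 1) = c * k - D := by field_simp
  have e4 : 1 ≤ log (2 * exp 1 / c) := by
    rw [le_log_iff_exp_le (by positivity), le_div_iff₀ hc]
    have := exp_pos 1
    nlinarith
  have e5 : (D : ℝ) * log (c * k / D) ≤ c * k - D := by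
    rw [← e3]
    exact mul_le_mul_of_nonneg_left e2 (by linarith)
  have e6 : (c * k - D) * 1 ≤ (c * k - D) * log (2 * exp 1 / c) := mul_le_mul_of_nonneg_left e4 (by linarith)
  rw [e1]
  linarith

/-- exponentially many vertices -/
theorem deep {n k : ℕ} {G : SimpleGraph (Fin n)} (h1 : G.CliqueFree k) (h2 : Gᶜ.CliqueFree k) (θ : ℝ) (hθ : 0 < θ) (hθ1 : θ ≤ 1)
    (hn : exp (θ * k) ≤ n) : RGe G ⌊θ * k / (10 * log (2 / θ))⌋₊ Set.univ := by
  by_contra h3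
  have hn0 : (0 : ℝ) < n := lt_of_lt_of_le (exp_pos _) hn
  have hn1 : 1 ≤ n := by
    have : 0 < n := by exact_mod_cast hn0
    omega
  obtain ⟨ℓ, hℓ⟩ : ∃ ℓ : ℝ, ℓ = log (2 / θ) := ⟨_, rfl⟩
  have hl2 := log_two_gt_d9
  have hℓ2 : 0.693 ≤ ℓ := by
    have e1 := log_le_log (show (0 : ℝ) < 2 by norm_num) (show (2 : ℝ) ≤ 2 / θ by
      rw [le_div_iff₀ hθ]
      linarith)
    rw [hℓ]
    linarith
  rw [← hℓ] at h3
  have hc : 0 < θ / (10 * ℓ) := by positivity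
  have hc2 : θ / (10 * ℓ) ≤ 1 / 2 := by
    rw [div_le_iff₀ (by positivity)]
    linarith
  have h4 := gen hn1 h1 h2 (θ / (10 * ℓ)) hc hc2 (D := ⌊θ * k / (10 * ℓ)⌋₊) (by
    refine (Nat.floor_le (by positivity)).trans (le_of_eq ?_)
    ring) h3
  have h5 : θ * k ≤ log n := by
    rw [le_log_iff_exp_le hn0]
    exact hn
  have hk0 : (0 : ℝ) < k := by
    by_contra h
    have h6 : (k : ℝ) = 0 := le_antisymm (not_lt.1 h) (Nat.cast_nonneg _)
    have h7 : k = 0 := by exact_mod_cast h6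
    rw [h7] at h1
    exact h1 ∅ (by simp [SimpleGraph.isNClique_iff])
  have h6 : log (2 * exp 1 / (θ / (10 * ℓ))) ≤ 5.5 * ℓ := by
    have e1 : 2 * exp 1 / (θ / (10 * ℓ)) = (2 / θ) * ((16 * exp 1) * ((10 / 16) * ℓ)) := by
      field_simp
    rw [e1, log_mul (by positivity) (by positivity), log_mul (by positivity) (by positivity), log_mul (by norm_num) (exp_pos 1).ne', log_exp,
      log_mul (by norm_num) (by positivity), ← hℓ]
    have e2 := log16.2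
    have e3 : log ℓ ≤ ℓ - 1 := log_le_sub_one_of_pos (by linarith)
    have e4 : log (10 / 16 : ℝ) ≤ 10 / 16 - 1 := log_le_sub_one_of_pos (by norm_num)
    linarith
  have h7 : θ / (10 * ℓ) * log (2 * exp 1 / (θ / (10 * ℓ))) ≤ 0.55 * θ := by
    have e1 := mul_le_mul_of_nonneg_left h6 hc.le
    have e2 : θ / (10 * ℓ) * (5.5 * ℓ) = 0.55 * θ := by
      field_simp
      norm_num
    linarith
  have h8 := mul_le_mul_of_nonneg_left h7 hk0.le
  have h9 : 0 < θ * k := by positivity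
  linarith

/-- the constant `1 / 13` -/
theorem thirteen {n k : ℕ} {G : SimpleGraph (Fin n)} (h1 : G.CliqueFree k) (h2 : Gᶜ.CliqueFree k) (hn1 : 1 ≤ n)
    (hn : k * ((5 * log 2 + 1) / 13) < log n) : RGe G (k / 13) Set.univ := by
  by_contra h3
  have hD : ((k / 13 : ℕ) : ℝ) ≤ 1 / 13 * k := by
    have := @Nat.cast_div_le ℝ _ _ _ k 13
    push_cast at this
    linarith
  have h4 := gen hn1 h1 h2 (1 / 13) (by norm_num) (by norm_num) (D := k / 13) hD h3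
  have h5 : log (2 * exp 1 / (1 / 13)) ≤ 5 * log 2 + 1 := by
    have e1 : 2 * exp 1 / (1 / 13) ≤ 2 ^ 5 * exp 1 := by
      have := exp_pos 1
      linarith
    have e2 := log_le_log (by positivity) e1
    rw [log_mul (by norm_num) (exp_pos 1).ne', log_exp, log_pow] at e2
    push_cast at e2
    linarith
  have hk0 : (0 : ℝ) ≤ k := Nat.cast_nonneg _
  have h6 := mul_le_mul_of_nonneg_left h5 hk0
  linarith

theorem sqrt_two {n k : ℕ} {G : SimpleGraph (Fin n)} (h1 : G.CliqueFree k) (h2 : Gᶜ.CliqueFree k) (hn : (2 : ℝ) ^ ((k : ℝ) / 2) ≤ n) :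
    RGe G (k / 13) Set.univ := by
  have hn0 : (0 : ℝ) < n := lt_of_lt_of_le (by positivity) hn
  have hn1 : 1 ≤ n := by
    have : 0 < n := by exact_mod_cast hn0
    omega
  have hk0 : (0 : ℝ) < k := by
    by_contra h
    have h6 : (k : ℝ) = 0 := le_antisymm (not_lt.1 h) (Nat.cast_nonneg _)
    have h7 : k = 0 := by exact_mod_cast h6
    rw [h7] at h1
    exact h1 ∅ (by simp [SimpleGraph.isNClique_iff])
  refine thirteen h1 h2 hn1 ?_
  have e1 := log_le_log (by positivity) hn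
  rw [log_rpow (by norm_num)] at e1
  have e2 := log_two_gt_d9
  nlinarith

open Pool.Agent.H818R2.Ram in
/-- extremal colourings -/
theorem extremal {n k : ℕ} (hk : 300 ≤ k) {G : SimpleGraph (Fin n)} (hn : n + 1 = R k k) (h1 : G.CliqueFree k) (h2 : Gᶜ.CliqueFree k) :
    RGe G (k / 13) Set.univ ∧ ¬ RGe G (2 * k) Set.univ := by
  have hE := erdos_lower (k := k) (by omega)
  rw [← hn] at hE
  have hn1 : 1 ≤ n := by
    by_contra hcon
    have : n = 0 := by omega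
    subst this
    have : 2 ^ 8 ≤ 2 ^ k := Nat.pow_le_pow_right (by norm_num) (by omega)
    norm_num at hE
  constructor
  · refine thirteen h1 h2 hn1 ?_
    have hn0 : (0 : ℝ) < n := by exact_mod_cast hn1
    have hE' : (2 : ℝ) ^ k ≤ (2 * n) ^ 2 := by
      have h3 : (2 : ℝ) ^ k < ((n : ℝ) + 1) ^ 2 := by exact_mod_cast hE
      have h4 : (1 : ℝ) ≤ n := by exact_mod_cast hn1
      nlinarith
    have h5 := log_le_log (by positivity) hE'
    rw [log_pow, log_pow, log_mul (by norm_num) hn0.ne'] at h5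
    push_cast at h5
    have h6 := log_two_gt_d9
    have h7 := log_two_lt_d9
    have h8 : (300 : ℝ) ≤ k := by exact_mod_cast hk
    nlinarith
  · intro hr
    obtain ⟨T, -, hc⟩ := RGe.card _ _ _ hr
    have h3 := Finset.card_le_univ T
    rw [Fintype.card_fin, hc] at h3
    have h4 : R k k ≤ 4 ^ k := by
      obtain ⟨a, rfl⟩ : ∃ a, k = a + 1 := ⟨k - 1, by omega⟩
      calc R (a + 1) (a + 1) ≤ (a + a).choose a := R_succ_le_choose a a
        _ ≤ 2 ^ (a + a) := Nat.choose_le_two_pow _ _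
        _ = 4 ^ a := by rw [← two_mul, pow_mul]; norm_num
        _ ≤ 4 ^ (a + 1) := Nat.pow_le_pow_right (by norm_num) (by omega)
    rw [pow_mul] at h3
    norm_num at h3
    omega

end Pool.Agent.Z72.LD
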