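import Pool.Agent.TH615.VCGraph
import Pool.Agent.Z72.LD.Basic

/-!
# Random sparse graphs without large bicliques
-/

set_option autoImplicit false

namespace Pool.Agent.Z72.LD

open Finset
open Pool.Agent.TH458.VCB

/-- no complete bipartite graph with parts of `t` and `M` vertices -/
def NoBi {n : ℕ} (G : SimpleGraph (Fin n)) (t M : ℕ) : Prop :=
  ∀ X W : Finset (Fin n), X.card = t → W.card = M → Disjoint X W → ¬ ∀ x ∈ X, ∀ y ∈ W, G.Adj x y

/-- the pairs -/
def bip {n : ℕ} (X W : Finset (Fin n)) : Finset (Sym2 (Fin n)) := (X ×ˢ W).image fun p => s(p.1, p.2)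

theorem card_bip {n : ℕ} {X W : Finset (Fin n)} (h : Disjoint X W) : (bip X W).card = X.card * W.card := by
  unfold bip
  rw [card_image_of_injOn, card_product]
  intro p hp p' hp' hpp
  have h1 := Finset.mem_coe.mp hp
  have h2 := Finset.mem_coe.mp hp'
  rw [mem_product] at h1 h2
  have h3 : s(p.1, p.2) = s(p'.1, p'.2) := hpp
  rw [Sym2.eq_iff] at h3
  rcases h3 with h3 | h3
  · exact Prod.ext h3.1 h3.2
  · exfalso
    have h4 := h1.1
    rw [h3.1] at h4
    exact Finset.disjoint_left.mp h h4 h2.2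

open Classical in
theorem bi_count (n t M q : ℕ) (hq : 1 ≤ q) :
    ((univ.filter (fun f : Sym2 (Fin n) → Fin q => ¬ NoBi (Gf f) t M)).card : ℝ) ≤
      (n : ℝ) ^ t * (n : ℝ) ^ M * ((q : ℝ) ^ Fintype.card (Sym2 (Fin n)) * (1 / (q : ℝ)) ^ (t * M)) := by
  have hq0 : (0 : ℝ) < q := by exact_mod_cast hq
  have h := union_bound (q := q) ((powersetCard t (univ : Finset (Fin n)) ×ˢ powersetCard M (univ : Finset (Fin n))).filter
      fun p => Disjoint p.1 p.2)
    (univ.filter (fun f : Sym2 (Fin n) → Fin q => ¬ NoBi (Gf f) t M))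
    (fun p => univ.filter (fun f : Sym2 (Fin n) → Fin q => ∀ e ∈ bip p.1 p.2, f e ∈ A0 q))
    ((q : ℝ) ^ Fintype.card (Sym2 (Fin n)) * (1 / (q : ℝ)) ^ (t * M)) (by
      intro f hf
      rw [mem_filter] at hf
      have h1 := hf.2
      unfold NoBi at h1
      push Not at h1
      obtain ⟨X, W, hX, hW, hd, hadj⟩ := h1
      refine ⟨(X, W), ?_, ?_⟩
      · rw [mem_filter, mem_product, mem_powersetCard, mem_powersetCard]
        exact ⟨⟨⟨subset_univ _, hX⟩, ⟨subset_univ _, hW⟩⟩, hd⟩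
      · rw [mem_filter]
        refine ⟨mem_univ _, ?_⟩
        intro e he
        unfold bip at he
        rw [mem_image] at he
        obtain ⟨p, hp, rfl⟩ := he
        rw [mem_product] at hp
        unfold A0
        rw [mem_filter]
        exact ⟨mem_univ _, (hadj p.1 hp.1 p.2 hp.2).2⟩) (by
      intro p hp
      rw [mem_filter, mem_product, mem_powersetCard, mem_powersetCard] at hp
      rw [count_eq hq, card_bip hp.2, hp.1.1.2, hp.1.2.2, card_A0 hq, Nat.cast_one])
  refine h.trans (mul_le_mul_of_nonneg_right ?_ (by positivity))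
  have h2 : ((powersetCard t (univ : Finset (Fin n)) ×ˢ powersetCard M (univ : Finset (Fin n))).filter
      fun p => Disjoint p.1 p.2).card ≤ n ^ t * n ^ M := by
    refine (card_filter_le _ _).trans ?_
    rw [card_product, card_powersetCard, card_powersetCard, card_univ, Fintype.card_fin]
    exact Nat.mul_le_mul (Nat.choose_le_pow n t) (Nat.choose_le_pow n M)
  exact_mod_cast h2

/-- Random colourings. -/
theorem exists_graph (n k t M q : ℕ) (hq : 1 ≤ q)
    (hlt : (n.choose k : ℝ) * (1 / (q : ℝ)) ^ (k.choose 2)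
      + (n.choose k : ℝ) * (1 - 1 / (q : ℝ)) ^ (k.choose 2)
      + (n : ℝ) ^ t * (n : ℝ) ^ M * (1 / (q : ℝ)) ^ (t * M) < 1) :
    ∃ G : SimpleGraph (Fin n), G.CliqueFree k ∧ Gᶜ.CliqueFree k ∧ NoBi G t M := by
  classical
  by_contra hcon
  push Not at hcon
  have hq0 : (0 : ℝ) < q := by
    have : 0 < q := hq
    exact_mod_cast this
  set N := Fintype.card (Sym2 (Fin n)) with hN
  have h1 := clique_count n k q hq
  have h2 := indep_count n k q hq
  have h3 := bi_count n t M q hq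
  rw [← hN] at h1 h2 h3
  have h4 : (univ : Finset (Sym2 (Fin n) → Fin q)) ⊆
      (univ.filter (fun f : Sym2 (Fin n) → Fin q => ¬ (Gf f).CliqueFree k)) ∪
      ((univ.filter (fun f : Sym2 (Fin n) → Fin q => ¬ (Gf f)ᶜ.CliqueFree k)) ∪
      (univ.filter (fun f : Sym2 (Fin n) → Fin q => ¬ NoBi (Gf f) t M))) := by
    intro f _
    rw [mem_union, mem_union, mem_filter, mem_filter, mem_filter]
    by_cases ha : (Gf f).CliqueFree k
    · by_cases hb : (Gf f)ᶜ.CliqueFree k
      · exact Or.inr (Or.inr ⟨mem_univ _, hcon _ ha hb⟩)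
      · exact Or.inr (Or.inl ⟨mem_univ _, hb⟩)
    · exact Or.inl ⟨mem_univ _, ha⟩
  have h5 := ((card_le_card h4).trans (card_union_le _ _)).trans
    (Nat.add_le_add_left (card_union_le _ _) _)
  rw [card_univ, Fintype.card_fun, Fintype.card_fin, ← hN] at h5
  have h6 : (q : ℝ) ^ N ≤
      ((univ.filter (fun f : Sym2 (Fin n) → Fin q => ¬ (Gf f).CliqueFree k)).card : ℝ) +
      (((univ.filter (fun f : Sym2 (Fin n) → Fin q => ¬ (Gf f)ᶜ.CliqueFree k)).card : ℝ) +
      ((univ.filter (fun f : Sym2 (Fin n) → Fin q => ¬ NoBi (Gf f) t M)).card : ℝ)) := by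
    exact_mod_cast h5
  have hqN : (0 : ℝ) < (q : ℝ) ^ N := by positivity
  have e1 : ((univ.filter (fun f : Sym2 (Fin n) → Fin q => ¬ (Gf f).CliqueFree k)).card : ℝ) ≤
      (n.choose k : ℝ) * ((q : ℝ) ^ N * (1 / (q : ℝ)) ^ (k.choose 2)) := by
    convert h1
  have e2 : ((univ.filter (fun f : Sym2 (Fin n) → Fin q => ¬ (Gf f)ᶜ.CliqueFree k)).card : ℝ) ≤
      (n.choose k : ℝ) * ((q : ℝ) ^ N * (1 - 1 / (q : ℝ)) ^ (k.choose 2)) := by
    convert h2
  have e3 : ((univ.filter (fun f : Sym2 (Fin n) → Fin q => ¬ NoBi (Gf f) t M)).card : ℝ) ≤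
      (n : ℝ) ^ t * (n : ℝ) ^ M * ((q : ℝ) ^ N * (1 / (q : ℝ)) ^ (t * M)) := by
    convert h3
  have h7 : (q : ℝ) ^ N ≤ (q : ℝ) ^ N * ((n.choose k : ℝ) * (1 / (q : ℝ)) ^ (k.choose 2)
      + (n.choose k : ℝ) * (1 - 1 / (q : ℝ)) ^ (k.choose 2)
      + (n : ℝ) ^ t * (n : ℝ) ^ M * (1 / (q : ℝ)) ^ (t * M)) := by
    refine h6.trans ((add_le_add e1 (add_le_add e2 e3)).trans (le_of_eq ?_))
    ring
  have h8 := mul_lt_mul_of_pos_left hlt hqN
  linarith

/-- no large biclique: small rank -/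
theorem not_rge {n : ℕ} (G : SimpleGraph (Fin n)) (t m : ℕ) (h : NoBi G t (2 ^ m)) : ¬ RGe G (t + m) Set.univ := by
  intro hr
  obtain ⟨X, S', hX, -, hadj, hm, -⟩ := biclique G t m _ hr
  obtain ⟨T, hT, hc⟩ := RGe.card G m S' hm
  refine h X T hX hc ?_ fun x hx y hy => hadj x hx y (hT hy)
  rw [Finset.disjoint_left]
  intro x hx hx2
  exact G.loopless.irrefl x (hadj x hx x (hT hx2))

end Pool.Agent.Z72.LD
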