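import Pool.Agent.Z72.LD.Main

/-!
# The whole range
-/

set_option autoImplicit false

namespace Pool.Agent.Z72.LD

open Finset Real Filter Topology

theorem pred_adm {k : ℕ} (hk : 1 ≤ k) (d : ℕ) : k - 1 ∈ Adm k d := by
  refine ⟨⊥, ?_, ?_, ?_⟩
  · intro s hs
    have h1 := hs.card_eq
    have h2 := Finset.card_le_univ s
    rw [Fintype.card_fin] at h2
    omega
  · intro s hs
    have h1 := hs.card_eq
    have h2 := Finset.card_le_univ s
    rw [Fintype.card_fin] at h2
    omega
  · intro h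
    obtain ⟨x, ⟨y, hy⟩, -⟩ := RGe.le _ _ (show 1 ≤ d + 1 by omega) h
    have := hy.2
    simp at this

open Pool.Agent.H818R2.Ram in
theorem two_pow_adm {d k : ℕ} (hk : 3 ≤ k) (hd : 2 * d ≤ k) : 2 ^ d ∈ Adm k d := by
  have h1 := erdos_lower hk
  have h2 : 2 ^ d < R k k := by
    by_contra h
    rw [not_lt] at h
    have h3 : (R k k) ^ 2 ≤ 2 ^ k := by
      calc (R k k) ^ 2 ≤ (2 ^ d) ^ 2 := Nat.pow_le_pow_left h 2
        _ = 2 ^ (2 * d) := by rw [← pow_mul, mul_comm]
        _ ≤ 2 ^ k := Nat.pow_le_pow_right (by norm_num) hd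
    omega
  have h3 : ¬ Arrows (2 ^ d) k k := Nat.notMem_of_lt_sInf h2
  unfold Arrows at h3
  push Not at h3
  obtain ⟨G, h4, h5⟩ := h3
  refine ⟨G, h4, h5, fun h => ?_⟩
  obtain ⟨T, -, hc⟩ := RGe.card _ _ _ h
  have h6 := Finset.card_le_univ T
  rw [Fintype.card_fin, hc] at h6
  have := (Nat.pow_le_pow_iff_right (show 1 < 2 by norm_num)).1 h6
  omega

theorem log_small : ∃ X : ℝ, 1 ≤ X ∧ ∀ x : ℝ, X ≤ x → log (x + 1) ≤ x / 40 ∧ log x ≤ x / 40 := by
  have h1 : ∀ᶠ x : ℝ in atTop, log x ≤ x / 80 := by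
    have h2 := isLittleO_log_id_atTop.bound (show (0 : ℝ) < 1 / 80 by norm_num)
    filter_upwards [h2, eventually_ge_atTop 1] with x hx hx1
    rw [id, norm_eq_abs, norm_eq_abs, abs_of_nonneg (show (0 : ℝ) ≤ x by linarith)] at hx
    have := le_abs_self (log x)
    linarith
  obtain ⟨X, hX⟩ := eventually_atTop.1 h1
  refine ⟨max X 1, le_max_right _ _, fun x hx => ?_⟩
  have hx1 : 1 ≤ x := (le_max_right _ _).trans hx
  have hxX : X ≤ x := (le_max_left _ _).trans hx
  have e1 := hX (x + 1) (by linarith)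
  have e2 := hX x hxX
  constructor <;> linarith

theorem whole : ∃ c : ℝ, 0 < c ∧ ∀ d k : ℕ, 1 ≤ d → 2 * d ≤ k → 3 ≤ k →
    c * (d * log (2 * k / d)) ≤ log (ord k d) ∧ log (ord k d) ≤ 4 * (d * log (2 * k / d)) := by
  obtain ⟨X, hX1, hX⟩ := log_small
  have hl2 := log_two_gt_d9
  have hl2' := log_two_lt_d9
  obtain ⟨c, hc⟩ : ∃ c : ℝ, c = min (1 / 4) (min (log 2 / (X + 5)) (1 / (3 * X))) := ⟨_, rfl⟩
  have hc1 : c ≤ 1 / 4 := by rw [hc]; exact min_le_left _ _
  have hc2 : c ≤ log 2 / (X + 5) := by rw [hc]; exact (min_le_right _ _).trans (min_le_left _ _)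
  have hc3 : c ≤ 1 / (3 * X) := by rw [hc]; exact (min_le_right _ _).trans (min_le_right _ _)
  have hc0 : 0 < c := by
    rw [hc]
    refine lt_min (by norm_num) (lt_min (div_pos (by linarith) (by linarith)) (by positivity))
  refine ⟨c, hc0, fun d k hd hdk hk => ?_⟩
  have hd0 : (0 : ℝ) < d := by exact_mod_cast hd
  have hd1 : (1 : ℝ) ≤ d := by exact_mod_cast hd
  have hk0 : (0 : ℝ) < k := by
    have : 0 < k := by omega
    exact_mod_cast this
  have hdk' : (2 : ℝ) * d ≤ k := by exact_mod_cast hdk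
  obtain ⟨A, hA⟩ : ∃ A : ℝ, A = log (2 * k / d) := ⟨_, rfl⟩
  have hA4 : 2 * log 2 ≤ A := by
    have e1 : 2 * log 2 = log 4 := by
      rw [show (4 : ℝ) = 2 ^ 2 by norm_num, log_pow]
      norm_num
    rw [e1, hA]
    refine log_le_log (by norm_num) ?_
    rw [le_div_iff₀ hd0]
    linarith
  have hAL : A = log 2 + log (k / d) := by
    rw [hA, ← log_mul (by norm_num) (by positivity)]
    congr 1
    ring
  rw [← hA]
  constructor
  · by_cases hr : X + 3 ≤ log ((k : ℝ) / d)
    · by_cases hdX : X ≤ d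
      · -- both large
        have hk16 : 16 * d ≤ k := by
          have e1 : (16 : ℝ) ≤ k / d := by
            have e2 : log 16 ≤ log ((k : ℝ) / d) := by
              have := log16.2
              linarith
            exact (log_le_log_iff (by norm_num) (by positivity)).1 e2
          rw [le_div_iff₀ hd0] at e1
          exact_mod_cast e1
        obtain ⟨h1, h2⟩ := ord_near d k hd hk16
        obtain ⟨L, hL⟩ : ∃ L : ℝ, L = log ((k : ℝ) / d) := ⟨_, rfl⟩
        rw [← hL] at h2 hr hAL
        have e1 := (hX d hdX).1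
        have e2 := (hX L (by linarith)).2
        have e3 := (abs_le.1 h2).1
        have e4 : (d : ℝ) * log L ≤ d * (L / 40) := mul_le_mul_of_nonneg_left e2 hd0.le
        have e5 : log ((d : ℝ) + 1) * L ≤ d / 40 * L := mul_le_mul_of_nonneg_right e1 (by linarith)
        have e6 : (d : ℝ) * A ≤ d * (2 * L) := mul_le_mul_of_nonneg_left (by linarith) hd0.le
        have e7 : c * (d * A) ≤ 1 / 4 * (d * A) := mul_le_mul_of_nonneg_right hc1 (mul_nonneg hd0.le (by linarith))
        linarith
      · -- few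
        rw [not_le] at hdX
        have h1 : k - 1 ≤ ord k d := le_ord (pred_adm (by omega) d)
        have h2 : ((k : ℝ) - 1) ≤ ord k d := by
          have : ((k - 1 : ℕ) : ℝ) ≤ ord k d := by exact_mod_cast h1
          rwa [Nat.cast_sub (by omega), Nat.cast_one] at this
        have hk3 : (3 : ℝ) ≤ k := by exact_mod_cast hk
        have h3 := log_le_log (show (0 : ℝ) < (k : ℝ) - 1 by linarith) h2
        have h4 : A ≤ 3 * log ((k : ℝ) - 1) := by
          rw [hA, show 3 * log ((k : ℝ) - 1) = log (((k : ℝ) - 1) ^ 3) by rw [log_pow]; norm_num]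
          refine log_le_log (by positivity) ?_
          rw [div_le_iff₀ hd0]
          have e1 : 2 * (k : ℝ) ≤ ((k : ℝ) - 1) ^ 3 := by nlinarith [mul_nonneg (show (0 : ℝ) ≤ k - 3 by linarith) (show (0 : ℝ) ≤ k by linarith), mul_nonneg (mul_nonneg (show (0 : ℝ) ≤ k - 3 by linarith) (show (0 : ℝ) ≤ k by linarith)) (show (0 : ℝ) ≤ k by linarith)]
          have e2 : ((k : ℝ) - 1) ^ 3 * 1 ≤ ((k : ℝ) - 1) ^ 3 * d := mul_le_mul_of_nonneg_left hd1 (pow_nonneg (by linarith) 3)
          linarith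
        have h5 : (d : ℝ) * A ≤ X * A := mul_le_mul_of_nonneg_right hdX.le (by linarith)
        have h6 : c * (d * A) ≤ 1 / (3 * X) * (X * A) := mul_le_mul hc3 h5 (mul_nonneg hd0.le (by linarith)) (by positivity)
        have h7 : 1 / (3 * X) * (X * A) = A / 3 := by
          have : X ≠ 0 := by linarith
          field_simp
        linarith
    · rw [not_le] at hr
      have h1 : 2 ^ d ≤ ord k d := le_ord (two_pow_adm hk hdk)
      have h2 : (2 : ℝ) ^ d ≤ ord k d := by exact_mod_cast h1
      have h3 := log_le_log (by positivity) h2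
      rw [log_pow] at h3
      have h4 : A ≤ X + 5 := by linarith
      have h5 : c * (d * A) ≤ log 2 / (X + 5) * (d * (X + 5)) :=
        mul_le_mul hc2 (mul_le_mul_of_nonneg_left h4 hd0.le) (mul_nonneg hd0.le (by linarith)) (div_nonneg (by linarith) (by linarith))
      have h6 : log 2 / (X + 5) * (d * (X + 5)) = d * log 2 := by
        have : X + 5 ≠ 0 := by linarith
        field_simp
      linarith
  · obtain ⟨G', g1, g2, g3⟩ := ord_mem (show 1 ≤ k by omega) d
    have h6 : 1 ≤ ord k d := (show 1 ≤ k - 1 by omega).trans (le_ord (pred_adm (by omega) d))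
    have h8 := up_real h6 g1 g2 (show 1 ≤ d + 1 by omega) (by omega) g3
    have e1 : 2 * exp 1 * (k : ℝ) / ((d + 1 : ℕ) : ℝ) ≤ exp 1 * (2 * k / d) := by
      rw [← mul_div_assoc]
      refine div_le_div₀ (by positivity) (le_of_eq (by ring)) hd0 ?_
      push_cast
      linarith
    have e2 := log_le_log (by positivity) e1
    rw [log_mul (exp_pos 1).ne' (by positivity), log_exp, ← hA] at e2
    have e3 : ((d + 1 : ℕ) : ℝ) ≤ 2 * d := by
      push_cast
      linarith
    have e4 : log (ord k d) ≤ (2 * d) * (1 + A) := by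
      refine h8.trans (mul_le_mul e3 e2 ?_ (by positivity))
      refine log_nonneg ?_
      rw [le_div_iff₀ (by positivity)]
      push_cast
      have := exp_one_gt_d9
      nlinarith
    have e5 : (d : ℝ) * 1 ≤ d * A := mul_le_mul_of_nonneg_left (by linarith) hd0.le
    linarith

end Pool.Agent.Z72.LD
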